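import Pool.Agent.helper96.Slope.Defs

/-!
# The Brun-Hooley majorant of the rough numbers
-/

namespace Pool.Agent.helper96.Slope

open Finset Pool.Agent.Lib.BrunHooley

lemma mj_ts_ge (m r j : ℕ) :
    ∏ p ∈ blk j, (1 - (if p ∣ m then (1 : ℝ) else 0)) ≤
      ts (blk j) (fun p => if p ∣ m then (1 : ℝ) else 0) (bpar 9 r j) := by
  have h := (bonferroni (blk j) (fun p => if p ∣ m then (1 : ℝ) else 0)
    (fun p _ => by split_ifs <;> norm_num) (fun p _ => by split_ifs <;> norm_num) (bpar 9 r j)).1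
  have hb : Even (bpar 9 r j) := ⟨9 + (r - j), by unfold bpar; ring⟩
  rw [hb.neg_one_pow] at h
  linarith

theorem maj_nonneg (r m : ℕ) : 0 ≤ maj r m := by
  unfold maj
  refine prod_nonneg fun j _ => le_trans ?_ (mj_ts_ge m r j)
  exact prod_nonneg fun p _ => by split_ifs <;> norm_num

theorem one_le_maj (r m : ℕ) (hm : Rough r m) : 1 ≤ maj r m := by
  unfold maj
  calc (1 : ℝ) = ∏ j ∈ range (r + 1), (1 : ℝ) := by simp
    _ ≤ _ := by
      refine prod_le_prod (fun _ _ => zero_le_one) fun j hj => le_trans ?_ (mj_ts_ge m r j)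
      refine le_of_eq (prod_eq_one fun p hp => ?_).symm
      have h1 : p ∈ Nat.primesLE (Z r) := by
        rw [← biUnion_blk]
        exact mem_biUnion.2 ⟨j, hj, hp⟩
      rw [if_neg (hm p h1), sub_zero]

/-- The error term of the majorant. -/
lemma maj_err (r : ℕ) :
    ∏ j ∈ range (r + 1), ∑ i ∈ range (bpar 9 r j + 1), es (blk j) (fun _ => (1 : ℝ)) i
      ≤ (Z r : ℝ) ^ 40 := by
  calc ∏ j ∈ range (r + 1), ∑ i ∈ range (bpar 9 r j + 1), es (blk j) (fun _ => (1 : ℝ)) i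
      ≤ ∏ j ∈ range (r + 1), (1 + ∑ p ∈ blk j, (1 : ℝ)) ^ bpar 9 r j :=
        prod_le_prod (fun j _ => sum_nonneg fun i _ => es_nonneg _ _ (fun _ _ => zero_le_one) _)
          (fun j _ => sum_es_le _ _ (fun _ _ => zero_le_one) _)
    _ ≤ ∏ j ∈ range (r + 1), ((Z j : ℝ) ^ 1) ^ bpar 9 r j := by
        refine prod_le_prod (fun _ _ => by positivity) (fun j _ => ?_)
        gcongr
        exact err_le 1 (fun _ => 1) (fun _ => by norm_num) j
    _ = (2 : ℝ) ^ (∑ j ∈ range (r + 1), 2 ^ j * (2 * (9 + (r - j)))) := by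
        rw [← prod_pow_eq_pow_sum]
        refine prod_congr rfl fun j _ => ?_
        rw [Z, bpar, pow_one]
        push_cast
        rw [← pow_mul]
    _ ≤ (2 : ℝ) ^ (2 ^ r * (4 * 9 + 4)) := pow_le_pow_right₀ (by norm_num) (weighted_sum_le 9 r)
    _ = _ := by
        rw [Z]; push_cast; rw [← pow_mul]

/-- The main term of the majorant. -/
lemma maj_main (r : ℕ) :
    ∏ j ∈ range (r + 1), ts (blk j) (fun p => 1 / (p : ℝ)) (bpar 9 r j) ≤ 2 * V r := by
  have hg0 : ∀ j ∈ range (r + 1), ∀ p ∈ blk j, 0 ≤ 1 / (p : ℝ) := fun _ _ _ _ => by positivity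
  have hg1 : ∀ j ∈ range (r + 1), ∀ p ∈ blk j, 1 / (p : ℝ) < 1 := by
    intro j _ p hp
    have hpp := mem_blk_prime hp
    rw [div_lt_one (by exact_mod_cast hpp.pos)]
    exact_mod_cast hpp.one_lt
  have hb : ∀ j ∈ range (r + 1), Even (bpar 9 r j) :=
    fun j _ => ⟨9 + (r - j), by unfold bpar; ring⟩
  have hE : ∑ j ∈ range (r + 1), es (blk j) (fun p => 1 / (p : ℝ)) (bpar 9 r j + 1) /
      ∏ p ∈ blk j, (1 - 1 / (p : ℝ)) ≤ 1 / 2 := by
    have h := sum_es_div_le 1 (fun _ => 1) (fun _ => zero_le_one) (fun _ => by norm_num) r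
    have h9 : Z 1 + 5 * 1 = 9 := by norm_num [Z]
    rw [h9] at h
    exact h
  have hV0 : ∀ j ∈ range (r + 1), 0 < ∏ p ∈ blk j, (1 - 1 / (p : ℝ)) := fun j hj =>
    prod_pos fun p hp => by linarith [hg1 j hj p hp]
  have hVY : ∀ j ∈ range (r + 1), ∏ p ∈ blk j, (1 - 1 / (p : ℝ)) ≤
      ts (blk j) (fun p => 1 / (p : ℝ)) (bpar 9 r j) := by
    intro j hj
    have := (bonferroni (blk j) (fun p => 1 / (p : ℝ)) (hg0 j hj)
      (fun p hp => (hg1 j hj p hp).le) (bpar 9 r j)).1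
    rw [(hb j hj).neg_one_pow] at this
    linarith
  have hYV : ∀ j ∈ range (r + 1), ts (blk j) (fun p => 1 / (p : ℝ)) (bpar 9 r j) ≤
      (∏ p ∈ blk j, (1 - 1 / (p : ℝ))) * Real.exp (es (blk j) (fun p => 1 / (p : ℝ))
        (bpar 9 r j + 1) / ∏ p ∈ blk j, (1 - 1 / (p : ℝ))) := by
    intro j hj
    have := (bonferroni (blk j) (fun p => 1 / (p : ℝ)) (hg0 j hj)
      (fun p hp => (hg1 j hj p hp).le) (bpar 9 r j)).2
    rw [(hb j hj).neg_one_pow] at this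
    have h2 := Real.add_one_le_exp (es (blk j) (fun p => 1 / (p : ℝ)) (bpar 9 r j + 1) /
      ∏ p ∈ blk j, (1 - 1 / (p : ℝ)))
    have h3 := mul_le_mul_of_nonneg_left h2 (hV0 j hj).le
    have h4 : (∏ p ∈ blk j, (1 - 1 / (p : ℝ))) * (es (blk j) (fun p => 1 / (p : ℝ))
        (bpar 9 r j + 1) / ∏ p ∈ blk j, (1 - 1 / (p : ℝ)) + 1)
        = es (blk j) (fun p => 1 / (p : ℝ)) (bpar 9 r j + 1) + ∏ p ∈ blk j, (1 - 1 / (p : ℝ)) := by
      have := (hV0 j hj).ne'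
      field_simp
    linarith
  have hVr : V r = ∏ j ∈ range (r + 1), ∏ p ∈ blk j, (1 - 1 / (p : ℝ)) := by
    unfold V
    rw [← biUnion_blk, prod_biUnion]
    intro i _ j _ hij
    exact blk_pairwise i j hij
  calc ∏ j ∈ range (r + 1), ts (blk j) (fun p => 1 / (p : ℝ)) (bpar 9 r j)
      ≤ ∏ j ∈ range (r + 1), ((∏ p ∈ blk j, (1 - 1 / (p : ℝ)))
        * Real.exp (es (blk j) (fun p => 1 / (p : ℝ)) (bpar 9 r j + 1) /
          ∏ p ∈ blk j, (1 - 1 / (p : ℝ)))) :=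
        prod_le_prod (fun j hj => (hV0 j hj).le.trans (hVY j hj)) hYV
    _ = (∏ j ∈ range (r + 1), ∏ p ∈ blk j, (1 - 1 / (p : ℝ)))
        * Real.exp (∑ j ∈ range (r + 1), es (blk j) (fun p => 1 / (p : ℝ)) (bpar 9 r j + 1) /
          ∏ p ∈ blk j, (1 - 1 / (p : ℝ))) := by
        rw [prod_mul_distrib, Real.exp_sum]
    _ ≤ (∏ j ∈ range (r + 1), ∏ p ∈ blk j, (1 - 1 / (p : ℝ))) * 2 := by
        refine mul_le_mul_of_nonneg_left ?_ (prod_nonneg fun j hj => (hV0 j hj).le)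
        refine (Real.exp_le_exp.mpr hE).trans ?_
        have : Real.exp (1 / 2) ^ 2 ≤ 2 ^ 2 := by
          rw [← Real.exp_nat_mul]
          have := Real.exp_one_lt_d9
          norm_num
          linarith
        exact le_of_sq_le_sq this (by norm_num)
    _ = 2 * V r := by rw [hVr]; ring

/-- Multiples in an interval. -/
lemma maj_count (r x H : ℕ) (D : Finset ℕ) (hD : D ⊆ Nat.primesLE (Z r)) :
    |∑ n ∈ Ioc x (x + H), (1 : ℝ) * ∏ p ∈ D, (if p ∣ n then (1 : ℝ) else 0) -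
      (H : ℝ) * ∏ p ∈ D, 1 / (p : ℝ)| ≤ ∏ p ∈ D, (1 : ℝ) := by
  have hpr : ∀ p ∈ D, p.Prime := fun p hp => (Nat.mem_primesLE.1 (hD hp)).2
  have hpos : 0 < ∏ p ∈ D, p := prod_pos fun p hp => (hpr p hp).pos
  have h1 := card_modEq_approx x H (∏ p ∈ D, p) 0 hpos
  rw [prod_const_one]
  have h2 : ∑ n ∈ Ioc x (x + H), (1 : ℝ) * ∏ p ∈ D, (if p ∣ n then (1 : ℝ) else 0) =
      (#{n ∈ Ioc x (x + H) | n ≡ 0 [MOD ∏ p ∈ D, p]} : ℝ) := by
    rw [card_filter]
    push_cast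
    refine sum_congr rfl fun n _ => ?_
    rw [one_mul]
    by_cases hn : n ≡ 0 [MOD ∏ p ∈ D, p]
    · rw [if_pos hn]
      refine prod_eq_one fun p hp => ?_
      rw [if_pos ((dvd_prod_of_mem _ hp).trans ((Nat.modEq_zero_iff_dvd).1 hn))]
    · rw [if_neg hn]
      have : ∃ p ∈ D, ¬ p ∣ n := by
        by_contra hcon
        push Not at hcon
        apply hn
        rw [Nat.modEq_zero_iff_dvd]
        exact prod_primes_dvd n (fun p hp => (hpr p hp).prime) hcon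
      obtain ⟨p, hp, hpn⟩ := this
      exact prod_eq_zero hp (if_neg hpn)
  have h3 : (H : ℝ) * ∏ p ∈ D, 1 / (p : ℝ) = H / ((∏ p ∈ D, p : ℕ) : ℝ) := by
    push_cast
    rw [prod_div_distrib, prod_const_one]
    ring
  rw [h2, h3]
  exact h1

theorem maj_sum : ∃ C : ℝ, ∃ E : ℕ, 0 < C ∧ ∀ r x H : ℕ,
    ∑ m ∈ Ioc x (x + H), maj r m ≤ C * H / Real.log (Z r) + (Z r : ℝ) ^ E := by
  refine ⟨2, 40, by norm_num, fun r x H => ?_⟩
  have h := sum_prod_ts_le (Ioc x (x + H)) (fun _ => (1 : ℝ)) (fun p n => if p ∣ n then (1 : ℝ) else 0)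
    (H : ℝ) (fun p => 1 / (p : ℝ)) (fun _ => (1 : ℝ)) blk (bpar 9 r) (range (r + 1))
    (Nat.primesLE (Z r)) (maj_count r x H) (fun j _ k _ hjk => blk_pairwise j k hjk)
    (fun j hj => by
      rw [← biUnion_blk]
      exact subset_biUnion_of_mem blk hj) ∅ (by simp) (by simp)
  simp only [prod_empty, mul_one, one_mul] at h
  have h1 := (abs_le.1 h).2
  have h2 : ∑ m ∈ Ioc x (x + H), maj r m = ∑ n ∈ Ioc x (x + H), ∏ j ∈ range (r + 1),
      ts (blk j) (fun p => if p ∣ n then (1 : ℝ) else 0) (bpar 9 r j) := rfl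
  rw [h2]
  have h3 := maj_err r
  have h4 := mul_le_mul_of_nonneg_left (maj_main r) (Nat.cast_nonneg (α := ℝ) H)
  have hZ2 : (2 : ℝ) ≤ Z r := by exact_mod_cast two_le_Z r
  have h5 : V r ≤ 1 / Real.log (Z r) := by
    refine (Pool.Agent.Lib.PrimeSums.prod_one_sub_le (Z r) (Z_pos r)).trans ?_
    have hlog : 0 < Real.log (Z r) := Real.log_pos (by linarith)
    refine one_div_le_one_div_of_le hlog (Real.log_le_log (by linarith) (by linarith))
  have h6 : (H : ℝ) * (2 * V r) ≤ 2 * H / Real.log (Z r) := by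
    calc (H : ℝ) * (2 * V r) ≤ H * (2 * (1 / Real.log (Z r))) := by gcongr
      _ = _ := by ring
  linarith

end Pool.Agent.helper96.Slope
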