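import Pool.Agent.helper96.Slope.Defs

/-!
# The weighted Bessel inequality
-/

namespace Pool.Agent.helper96.Slope

open Finset

theorem bessel {ι : Type*} (s : Finset ι) (I : Finset ℕ) (χ : ι → ℕ → ℂ) (β : ℕ → ℝ)
    (α : ℕ → ℂ) (Δ : ℝ) (hΔ0 : 0 ≤ Δ) (hβ : ∀ m ∈ I, 0 ≤ β m) (hα : ∀ m ∈ I, α m ≠ 0 → 1 ≤ β m)
    (hΔ : ∀ i ∈ s, ∑ j ∈ s, ‖∑ m ∈ I, (β m : ℂ) * χ i m * starRingEnd ℂ (χ j m)‖ ≤ Δ) :
    ∑ i ∈ s, ‖∑ m ∈ I, α m * χ i m‖ ^ 2 ≤ Δ * ∑ m ∈ I, ‖α m‖ ^ 2 := by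
  set S : ι → ℂ := fun i => ∑ m ∈ I, α m * χ i m with hS
  set T : ℝ := ∑ i ∈ s, ‖S i‖ ^ 2 with hT
  set A : ℝ := ∑ m ∈ I, ‖α m‖ ^ 2 with hA
  set G : ℕ → ℂ := fun m => ∑ i ∈ s, starRingEnd ℂ (S i) * χ i m with hG
  set K : ι → ι → ℂ := fun i j => ∑ m ∈ I, (β m : ℂ) * χ i m * starRingEnd ℂ (χ j m) with hK
  have hT0 : 0 ≤ T := sum_nonneg fun i _ => by positivity
  have hA0 : 0 ≤ A := sum_nonneg fun i _ => by positivity
  -- first expression of T
  have h1 : (T : ℂ) = ∑ m ∈ I, α m * G m := by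
    have e1 : ∀ i, ((‖S i‖ ^ 2 : ℝ) : ℂ) = starRingEnd ℂ (S i) * S i := by
      intro i
      rw [mul_comm, Complex.mul_conj, Complex.normSq_eq_norm_sq]
    calc (T : ℂ) = ∑ i ∈ s, starRingEnd ℂ (S i) * S i := by
          rw [hT]
          push_cast
          refine sum_congr rfl fun i _ => ?_
          rw [← e1]
          push_cast
          rfl
      _ = ∑ i ∈ s, ∑ m ∈ I, starRingEnd ℂ (S i) * (α m * χ i m) := by
          refine sum_congr rfl fun i _ => ?_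
          rw [← mul_sum]
      _ = ∑ m ∈ I, ∑ i ∈ s, starRingEnd ℂ (S i) * (α m * χ i m) := sum_comm
      _ = ∑ m ∈ I, α m * G m := by
          refine sum_congr rfl fun m _ => ?_
          rw [hG, mul_sum]
          refine sum_congr rfl fun i _ => ?_
          ring
  have h2 : T ≤ ∑ m ∈ I, ‖α m‖ * (Real.sqrt (β m) * ‖G m‖) := by
    calc T = ‖(T : ℂ)‖ := by rw [Complex.norm_real, Real.norm_eq_abs, abs_of_nonneg hT0]
      _ ≤ ∑ m ∈ I, ‖α m * G m‖ := by rw [h1]; exact norm_sum_le _ _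
      _ ≤ _ := by
        refine sum_le_sum fun m hm => ?_
        rw [norm_mul]
        by_cases hne : α m = 0
        · simp [hne]
        · have h3 : 1 ≤ Real.sqrt (β m) := by
            rw [Real.one_le_sqrt]
            exact hα m hm hne
          have h4 : ‖G m‖ ≤ Real.sqrt (β m) * ‖G m‖ := le_mul_of_one_le_left (norm_nonneg _) h3
          gcongr
  have h3 : T ^ 2 ≤ A * ∑ m ∈ I, β m * ‖G m‖ ^ 2 := by
    calc T ^ 2 ≤ (∑ m ∈ I, ‖α m‖ * (Real.sqrt (β m) * ‖G m‖)) ^ 2 := by gcongr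
      _ ≤ (∑ m ∈ I, ‖α m‖ ^ 2) * ∑ m ∈ I, (Real.sqrt (β m) * ‖G m‖) ^ 2 :=
        sum_mul_sq_le_sq_mul_sq _ _ _
      _ = A * ∑ m ∈ I, β m * ‖G m‖ ^ 2 := by
        congr 1
        refine sum_congr rfl fun m hm => ?_
        rw [mul_pow, Real.sq_sqrt (hβ m hm)]
  -- expansion
  have h4 : ((∑ m ∈ I, β m * ‖G m‖ ^ 2 : ℝ) : ℂ) =
      ∑ i ∈ s, ∑ j ∈ s, starRingEnd ℂ (S i) * S j * K i j := by
    have e1 : ∀ m, (((‖G m‖ : ℝ) : ℂ)) ^ 2 = G m * starRingEnd ℂ (G m) := by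
      intro m
      rw [Complex.mul_conj, Complex.normSq_eq_norm_sq]
      push_cast
      rfl
    push_cast
    calc ∑ m ∈ I, (β m : ℂ) * ((‖G m‖ : ℝ) : ℂ) ^ 2
        = ∑ m ∈ I, ∑ i ∈ s, ∑ j ∈ s, starRingEnd ℂ (S i) * S j *
            ((β m : ℂ) * χ i m * starRingEnd ℂ (χ j m)) := by
          refine sum_congr rfl fun m _ => ?_
          rw [e1, hG, map_sum, sum_mul_sum, mul_sum]
          refine sum_congr rfl fun i _ => ?_
          rw [mul_sum]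
          refine sum_congr rfl fun j _ => ?_
          rw [map_mul, Complex.conj_conj]
          ring
      _ = ∑ i ∈ s, ∑ m ∈ I, ∑ j ∈ s, starRingEnd ℂ (S i) * S j *
            ((β m : ℂ) * χ i m * starRingEnd ℂ (χ j m)) := sum_comm
      _ = ∑ i ∈ s, ∑ j ∈ s, starRingEnd ℂ (S i) * S j * K i j := by
          refine sum_congr rfl fun i _ => ?_
          rw [sum_comm]
          refine sum_congr rfl fun j _ => ?_
          exact (mul_sum _ _ _).symm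
  have hB0 : 0 ≤ ∑ m ∈ I, β m * ‖G m‖ ^ 2 :=
    sum_nonneg fun m hm => mul_nonneg (hβ m hm) (by positivity)
  have hKsymm : ∀ i j, ‖K i j‖ = ‖K j i‖ := by
    intro i j
    have : K j i = starRingEnd ℂ (K i j) := by
      simp only [hK, map_sum, map_mul, Complex.conj_conj, Complex.conj_ofReal]
      refine sum_congr rfl fun m _ => ?_
      ring
    rw [this, RCLike.norm_conj]
  have h5 : ∑ m ∈ I, β m * ‖G m‖ ^ 2 ≤ Δ * T := by
    calc ∑ m ∈ I, β m * ‖G m‖ ^ 2 = ‖((∑ m ∈ I, β m * ‖G m‖ ^ 2 : ℝ) : ℂ)‖ := by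
          rw [Complex.norm_real, Real.norm_eq_abs, abs_of_nonneg hB0]
      _ ≤ ∑ i ∈ s, ∑ j ∈ s, ‖starRingEnd ℂ (S i) * S j * K i j‖ := by
          rw [h4]
          refine (norm_sum_le _ _).trans (sum_le_sum fun i _ => norm_sum_le _ _)
      _ ≤ ∑ i ∈ s, ∑ j ∈ s, (‖S i‖ ^ 2 * ‖K i j‖ / 2 + ‖S j‖ ^ 2 * ‖K j i‖ / 2) := by
          refine sum_le_sum fun i _ => sum_le_sum fun j _ => ?_
          rw [norm_mul, norm_mul, RCLike.norm_conj, ← hKsymm i j]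
          have := norm_nonneg (K i j)
          nlinarith [sq_nonneg (‖S i‖ - ‖S j‖)]
      _ = (∑ i ∈ s, ∑ j ∈ s, ‖S i‖ ^ 2 * ‖K i j‖ / 2) +
            ∑ j ∈ s, ∑ i ∈ s, ‖S j‖ ^ 2 * ‖K j i‖ / 2 := by
          simp only [sum_add_distrib]
          congr 1
          exact sum_comm
      _ = ∑ i ∈ s, ‖S i‖ ^ 2 * ∑ j ∈ s, ‖K i j‖ := by
          rw [← sum_add_distrib]
          refine sum_congr rfl fun i _ => ?_
          rw [← sum_add_distrib, mul_sum]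
          refine sum_congr rfl fun j _ => ?_
          ring
      _ ≤ ∑ i ∈ s, ‖S i‖ ^ 2 * Δ := by
          refine sum_le_sum fun i hi => ?_
          exact mul_le_mul_of_nonneg_left (hΔ i hi) (by positivity)
      _ = Δ * T := by rw [← sum_mul, mul_comm]
  rcases hT0.eq_or_lt with h0 | h0
  · rw [← h0]
    positivity
  · have h6 : T * T ≤ T * (Δ * A) := by
      calc T * T = T ^ 2 := by ring
        _ ≤ A * (Δ * T) := h3.trans (by gcongr)
        _ = T * (Δ * A) := by ring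
    exact le_of_mul_le_mul_left h6 h0

end Pool.Agent.helper96.Slope
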