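import Pool.Agent.helper96.Slope.Defs
import Pool.Agent.helper91.Slope.MJ
import Pool.Agent.helper91.Slope.SI
import Pool.Agent.helper68.Slope.CS

/-!
# Large sieve for a family of moduli with rough numbers
-/

namespace Pool.Agent.helper96.Slope

open Finset Pool.Agent.Lib.BrunHooley ArithmeticFunction

/-! ### Two characters -/

/-- The product of a character and the conjugate of another one, as a character modulo the
product of the moduli. -/
noncomputable def lsTheta (a a' : ℕ) (χ : DirichletCharacter ℂ a) (ψ : DirichletCharacter ℂ a') :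
    DirichletCharacter ℂ (a * a') :=
  DirichletCharacter.changeLevel (dvd_mul_right a a') χ *
    (DirichletCharacter.changeLevel (dvd_mul_left a' a) ψ)⁻¹

lemma lsTheta_apply (a a' : ℕ) [NeZero a] [NeZero a'] (χ : DirichletCharacter ℂ a)
    (ψ : DirichletCharacter ℂ a') (m : ℕ) :
    lsTheta a a' χ ψ m = χ m * starRingEnd ℂ (ψ m) := by
  have hstar : starRingEnd ℂ (ψ m) = ψ⁻¹ m := MulChar.star_apply' ψ m
  rw [hstar]
  unfold lsTheta
  rw [MulChar.mul_apply, ← map_inv]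
  by_cases hm : IsCoprime (m : ℤ) ((a * a' : ℕ) : ℤ)
  · have h1 := DirichletCharacter.changeLevel_eq_cast_of_dvd' χ (dvd_mul_right a a') hm
    have h2 := DirichletCharacter.changeLevel_eq_cast_of_dvd' ψ⁻¹ (dvd_mul_left a' a) hm
    simp only [Int.cast_natCast] at h1 h2
    rw [h1, h2]
  · have h0 : ∀ θ : DirichletCharacter ℂ (a * a'), θ (m : ZMod (a * a')) = 0 := by
      intro θ
      have := (DirichletCharacter.apply_eq_zero_iff θ (m : ℤ)).2 hm
      simpa using this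
    rw [h0, zero_mul]
    have h3 : ¬ IsCoprime (m : ℤ) (a : ℤ) ∨ ¬ IsCoprime (m : ℤ) (a' : ℤ) := by
      by_contra hcon
      push Not at hcon
      exact hm (by push_cast; exact hcon.1.mul_right hcon.2)
    rcases h3 with h3 | h3
    · have := (DirichletCharacter.apply_eq_zero_iff χ (m : ℤ)).2 h3
      simp only [Int.cast_natCast] at this
      rw [this, zero_mul]
    · have := (DirichletCharacter.apply_eq_zero_iff ψ⁻¹ (m : ℤ)).2 h3
      simp only [Int.cast_natCast] at this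
      rw [this, mul_zero]

lemma lsTheta_eq_one {a a' : ℕ}
    (χ : DirichletCharacter ℂ a)
    (ψ : DirichletCharacter ℂ a') :
    lsTheta a a' χ ψ = 1 ↔ DirichletCharacter.changeLevel (dvd_mul_right a a') χ =
      DirichletCharacter.changeLevel (dvd_mul_left a' a) ψ := by
  unfold lsTheta
  exact mul_inv_eq_one

open Classical in
/-- The index set. -/
noncomputable def lsIdx (𝒜 : Finset ℕ) : Finset (Σ a : ℕ, DirichletCharacter ℂ a) :=
  𝒜.sigma fun _ => univ.filter fun χ => χ ≠ 1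

open Classical in
lemma lsIdx_card {𝒜 : Finset ℕ} {N M : ℕ} (h : Fam 𝒜 N M) : #(lsIdx 𝒜) ≤ N ^ 2 := by
  unfold lsIdx
  rw [card_sigma]
  refine (sum_le_card_nsmul 𝒜 _ N ?_).trans ?_
  · intro a ha
    have : NeZero a := ⟨(h.pos a ha).ne'⟩
    refine (Finset.card_le_univ _).trans ?_
    rw [← Nat.card_eq_fintype_card,
      DirichletCharacter.card_eq_totient_of_hasEnoughRootsOfUnity]
    exact (Nat.totient_le a).trans (h.le a ha)
  have h2 : #𝒜 ≤ N := by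
    have : 𝒜 ⊆ Icc 1 N := fun a ha => mem_Icc.2 ⟨h.pos a ha, h.le a ha⟩
    simpa using card_le_card this
  rw [smul_eq_mul, sq]
  exact Nat.mul_le_mul_right N h2

open Classical in
/-- Few characters agree with a given one. -/
lemma lsIdx_same {𝒜 : Finset ℕ} {N M : ℕ} (h : Fam 𝒜 N M) (a : ℕ) (ha : a ∈ 𝒜)
    (χ : DirichletCharacter ℂ a) (hχ : χ ≠ 1) :
    #((lsIdx 𝒜).filter fun j => lsTheta a j.1 χ j.2 = 1) ≤ M := by
  have hna : NeZero a := ⟨(h.pos a ha).ne'⟩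
  have hf : 1 < χ.conductor := by
    have h1 : χ.conductor ≠ 0 := χ.conductor_ne_zero
    have h2 : χ.conductor ≠ 1 := fun h2 =>
      hχ (DirichletCharacter.eq_one_iff_conductor_eq_one.2 h2)
    omega
  refine le_trans ?_ (h.mult χ.conductor hf)
  refine card_le_card_of_injOn (fun j => j.1) ?_ ?_
  · rintro ⟨a', ψ⟩ hj
    simp only [lsIdx, coe_filter, mem_sigma, mem_filter, mem_univ, true_and,
      Set.mem_ofPred_eq] at hj
    obtain ⟨⟨ha', -⟩, hθ⟩ := hj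
    have hna' : NeZero a' := ⟨(h.pos a' ha').ne'⟩
    have hnaa : NeZero (a * a') := ⟨mul_ne_zero hna.ne hna'.ne⟩
    simp only [coe_filter, Set.mem_ofPred_eq]
    refine ⟨ha', ?_⟩
    rw [lsTheta_eq_one] at hθ
    have h1 := DirichletCharacter.conductor_changeLevel χ (dvd_mul_right a a')
    have h2 := DirichletCharacter.conductor_changeLevel ψ (dvd_mul_left a' a)
    rw [hθ, h2] at h1
    rw [← h1]
    exact ψ.conductor_dvd_level
  · rintro ⟨a', ψ⟩ hj ⟨a'', ψ'⟩ hj' haa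
    simp only at haa
    subst haa
    simp only [lsIdx, coe_filter, mem_sigma, mem_filter, mem_univ, true_and,
      Set.mem_ofPred_eq] at hj hj'
    obtain ⟨⟨ha', -⟩, hθ⟩ := hj
    obtain ⟨-, hθ'⟩ := hj'
    have hna' : NeZero a' := ⟨(h.pos a' ha').ne'⟩
    have hnaa : NeZero (a * a') := ⟨mul_ne_zero hna.ne hna'.ne⟩
    rw [lsTheta_eq_one] at hθ hθ'
    rw [hθ] at hθ'
    rw [DirichletCharacter.changeLevel_injective (dvd_mul_left a' a) hθ']

open Classical in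
theorem large_sieve : ∃ C : ℝ, ∃ E : ℕ, 0 < C ∧ ∀ (r x H N M : ℕ) (𝒜 : Finset ℕ) (α : ℕ → ℂ),
    Fam 𝒜 N M → (Z r) ^ E * N ^ 5 ≤ H → (∀ m ∈ Ioc x (x + H), α m ≠ 0 → Rough r m) →
    ∑ a ∈ 𝒜, ∑ χ : DirichletCharacter ℂ a,
      (if χ = 1 then 0 else ‖∑ m ∈ Ioc x (x + H), α m * χ m‖ ^ 2)
      ≤ C * M * (H / Real.log (Z r)) * ∑ m ∈ Ioc x (x + H), ‖α m‖ ^ 2 := by
  obtain ⟨C₁, E₁, hC₁, hsum⟩ := maj_sum
  obtain ⟨E₂, hchar⟩ := maj_char
  refine ⟨C₁ + 3, E₁ + E₂ + 1, by positivity, fun r x H N M 𝒜 α hF hH hα => ?_⟩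
  have hlhs : ∑ a ∈ 𝒜, ∑ χ : DirichletCharacter ℂ a,
      (if χ = 1 then 0 else ‖∑ m ∈ Ioc x (x + H), α m * χ m‖ ^ 2) =
      ∑ i ∈ lsIdx 𝒜, ‖∑ m ∈ Ioc x (x + H), α m * i.2 m‖ ^ 2 := by
    unfold lsIdx
    rw [sum_sigma]
    refine sum_congr rfl fun a _ => ?_
    rw [sum_filter]
    refine sum_congr rfl fun χ _ => ?_
    by_cases hχ : χ = 1
    · simp [hχ]
    · simp [hχ]
  rw [hlhs]
  have hZ2 : (2 : ℝ) ≤ Z r := by
    have : 2 ≤ Z r := two_le_Z r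
    exact_mod_cast this
  have hlog : 0 < Real.log (Z r) := Real.log_pos (by linarith)
  have hlogle : Real.log (Z r) ≤ Z r := by
    have := Real.log_le_sub_one_of_pos (show (0 : ℝ) < Z r by linarith)
    linarith
  have hM : (1 : ℝ) ≤ M := by exact_mod_cast hF.one_le
  refine bessel (lsIdx 𝒜) (Ioc x (x + H)) (fun i m => i.2 m) (maj r) α _ (by positivity)
    (fun m _ => maj_nonneg r m) (fun m hm hne => one_le_maj r m (hα m hm hne)) ?_
  rintro ⟨a, χ⟩ hi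
  have hi' := hi
  simp only [lsIdx, mem_sigma, mem_filter, mem_univ, true_and] at hi
  obtain ⟨ha, hχ⟩ := hi
  have hna : NeZero a := ⟨(hF.pos a ha).ne'⟩
  have hN : 1 ≤ N := (hF.pos a ha).trans_le (hF.le a ha)
  have hN' : (1 : ℝ) ≤ N := by exact_mod_cast hN
  -- the size of H
  have hH' : (Z r : ℝ) ^ (E₁ + E₂ + 1) * N ^ 5 ≤ H := by exact_mod_cast hH
  have hb1 : (Z r : ℝ) ^ E₁ ≤ H / Real.log (Z r) := by
    rw [le_div_iff₀ hlog]
    calc (Z r : ℝ) ^ E₁ * Real.log (Z r) ≤ (Z r : ℝ) ^ E₁ * Z r := by gcongr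
      _ = (Z r : ℝ) ^ (E₁ + 1) := by ring
      _ ≤ (Z r : ℝ) ^ (E₁ + E₂ + 1) := pow_le_pow_right₀ (by linarith) (by omega)
      _ ≤ (Z r : ℝ) ^ (E₁ + E₂ + 1) * N ^ 5 :=
        le_mul_of_one_le_right (by positivity) (one_le_pow₀ hN')
      _ ≤ H := hH'
  have hb2 : (Z r : ℝ) ^ E₂ * N ^ 4 ≤ H / Real.log (Z r) := by
    rw [le_div_iff₀ hlog]
    calc (Z r : ℝ) ^ E₂ * N ^ 4 * Real.log (Z r) ≤ (Z r : ℝ) ^ E₂ * N ^ 4 * Z r := by gcongr
      _ = (Z r : ℝ) ^ (E₂ + 1) * N ^ 4 := by ring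
      _ ≤ (Z r : ℝ) ^ (E₁ + E₂ + 1) * N ^ 5 := by
        have h1 : (Z r : ℝ) ^ (E₂ + 1) ≤ (Z r : ℝ) ^ (E₁ + E₂ + 1) :=
          pow_le_pow_right₀ (by linarith) (by omega)
        have h2 : (N : ℝ) ^ 4 ≤ (N : ℝ) ^ 5 := pow_le_pow_right₀ hN' (by norm_num)
        gcongr
      _ ≤ H := hH'
  -- bounds of the individual sums
  have hsame : ∀ j : (Σ a : ℕ, DirichletCharacter ℂ a),
      ‖∑ m ∈ Ioc x (x + H), (maj r m : ℂ) * χ m * starRingEnd ℂ (j.2 m)‖ ≤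
        C₁ * H / Real.log (Z r) + (Z r : ℝ) ^ E₁ := by
    intro j
    refine (norm_sum_le _ _).trans (le_trans (sum_le_sum fun m _ => ?_) (hsum r x H))
    rw [norm_mul, norm_mul, RCLike.norm_conj, Complex.norm_real, Real.norm_eq_abs,
      abs_of_nonneg (maj_nonneg r m)]
    have h1 := DirichletCharacter.norm_le_one χ (m : ZMod a)
    have h2 := DirichletCharacter.norm_le_one j.2 (m : ZMod j.1)
    have h3 := maj_nonneg r m
    calc maj r m * ‖χ m‖ * ‖j.2 m‖ ≤ maj r m * 1 * 1 := by gcongr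
      _ = maj r m := by ring
  have hdiff : ∀ j ∈ lsIdx 𝒜, lsTheta a j.1 χ j.2 ≠ 1 →
      ‖∑ m ∈ Ioc x (x + H), (maj r m : ℂ) * χ m * starRingEnd ℂ (j.2 m)‖ ≤
        2 * N ^ 2 * (Z r : ℝ) ^ E₂ := by
    rintro ⟨a', ψ⟩ hj hθ
    simp only [lsIdx, mem_sigma, mem_filter, mem_univ, true_and] at hj
    have hna' : NeZero a' := ⟨(hF.pos a' hj.1).ne'⟩
    have hnaa : NeZero (a * a') := ⟨mul_ne_zero hna.ne hna'.ne⟩
    have h1 := hchar r x H (a * a') (lsTheta a a' χ ψ) hθ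
    have h2 : ∑ m ∈ Ioc x (x + H), (maj r m : ℂ) * χ m * starRingEnd ℂ (ψ m) =
        ∑ m ∈ Ioc x (x + H), (maj r m : ℂ) * lsTheta a a' χ ψ m := by
      refine sum_congr rfl fun m _ => ?_
      rw [lsTheta_apply, mul_assoc]
    rw [h2]
    refine h1.trans ?_
    have h3 : (a : ℝ) ≤ N := by exact_mod_cast hF.le a ha
    have h4 : (a' : ℝ) ≤ N := by exact_mod_cast hF.le a' hj.1
    have h5 : ((a * a' : ℕ) : ℝ) ≤ N ^ 2 := by
      push_cast
      rw [sq]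
      gcongr
    gcongr
  -- summation
  rw [← sum_filter_add_sum_filter_not (lsIdx 𝒜) (fun j => lsTheta a j.1 χ j.2 = 1)]
  have hp1 : ∑ j ∈ (lsIdx 𝒜).filter (fun j => lsTheta a j.1 χ j.2 = 1),
      ‖∑ m ∈ Ioc x (x + H), (maj r m : ℂ) * χ m * starRingEnd ℂ (j.2 m)‖ ≤
      M * (C₁ * H / Real.log (Z r) + (Z r : ℝ) ^ E₁) := by
    refine (sum_le_card_nsmul _ _ _ fun j _ => hsame j).trans ?_
    rw [nsmul_eq_mul]
    have h1 : (#((lsIdx 𝒜).filter fun j => lsTheta a j.1 χ j.2 = 1) : ℝ) ≤ M := by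
      exact_mod_cast lsIdx_same hF a ha χ hχ
    have h2 : 0 ≤ C₁ * H / Real.log (Z r) + (Z r : ℝ) ^ E₁ := by positivity
    gcongr
  have hp2 : ∑ j ∈ (lsIdx 𝒜).filter (fun j => ¬ lsTheta a j.1 χ j.2 = 1),
      ‖∑ m ∈ Ioc x (x + H), (maj r m : ℂ) * χ m * starRingEnd ℂ (j.2 m)‖ ≤
      N ^ 2 * (2 * N ^ 2 * (Z r : ℝ) ^ E₂) := by
    refine (sum_le_card_nsmul _ _ _ fun j hj => hdiff j (mem_filter.1 hj).1
      (mem_filter.1 hj).2).trans ?_
    rw [nsmul_eq_mul]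
    have h1 : (#((lsIdx 𝒜).filter fun j => ¬ lsTheta a j.1 χ j.2 = 1) : ℝ) ≤ (N : ℝ) ^ 2 := by
      exact_mod_cast (card_filter_le _ _).trans (lsIdx_card hF)
    gcongr
  refine (add_le_add hp1 hp2).trans ?_
  have hX : 0 ≤ H / Real.log (Z r) := by positivity
  calc M * (C₁ * H / Real.log (Z r) + (Z r : ℝ) ^ E₁) + N ^ 2 * (2 * N ^ 2 * (Z r : ℝ) ^ E₂)
      = M * (C₁ * (H / Real.log (Z r)) + (Z r : ℝ) ^ E₁) + 2 * ((Z r : ℝ) ^ E₂ * N ^ 4) := by ring
    _ ≤ M * (C₁ * (H / Real.log (Z r)) + H / Real.log (Z r)) + 2 * (M * (H / Real.log (Z r))) := by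
      have h1 : (Z r : ℝ) ^ E₂ * N ^ 4 ≤ M * (H / Real.log (Z r)) :=
        hb2.trans (le_mul_of_one_le_left hX hM)
      have h2 : M * (C₁ * (H / Real.log (Z r)) + (Z r : ℝ) ^ E₁) ≤
          M * (C₁ * (H / Real.log (Z r)) + H / Real.log (Z r)) := by gcongr
      linarith
    _ = (C₁ + 3) * M * (H / Real.log (Z r)) := by ring

end Pool.Agent.helper96.Slope
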